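import Pool.Agent.Y322.Kemp

/-!
# Kemperman's inequality: every solution is nondecreasing
-/

namespace Pool.Agent.Y322.Kemp

/-- The main theorem, on `G ∩ I` for an additive subgroup `G` of `ℝ` closed under multiplication
by `√2` and an open interval `I`. -/
theorem main (G : AddSubgroup ℝ) (hroot : ∀ x ∈ G, Real.sqrt 2 * x ∈ G) (I : Set ℝ)
    (hI : IsOpen I) (hc : I.OrdConnected) (f : ℝ → ℝ)
    (hf : ∀ x ∈ G, ∀ h ∈ G, 0 < h → x ∈ I → x + 2*h ∈ I → 2 * f x ≤ f (x+h) + f (x+2*h)) :
    MonotoneOn f (G ∩ I) := by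
  have hs0 : (0:ℝ) < Real.sqrt 2 := Real.sqrt_pos.mpr (by norm_num)
  have mpos := mu_pos
  have mlt := mu_lt_half
  have msq := mu_sq
  -- `G` is closed under multiplication by `μ`
  have hmu : ∀ x ∈ G, mu * x ∈ G := by
    intro x hx
    have e : mu * x = Real.sqrt 2 * x - x := by unfold mu; ring
    rw [e]; exact G.sub_mem (hroot x hx) hx
  have hmun : ∀ (n : ℕ), ∀ x ∈ G, mu^n * x ∈ G := by
    intro n
    induction n with
    | zero => intro x hx; simpa using hx
    | succ n ih =>
      intro x hx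
      have := hmu _ (ih x hx)
      rwa [show mu^(n+1) * x = mu * (mu^n * x) by ring]
  rintro a ⟨haG, haI⟩ b ⟨hbG, hbI⟩ hab
  rcases hab.lt_or_eq with hlt | rfl
  swap
  · exact le_rfl
  -- choose a small scale `u`
  obtain ⟨ε, hε, hball⟩ := Metric.isOpen_iff.mp hI b hbI
  obtain ⟨n, hn⟩ := exists_pow_lt_of_lt_one (show 0 < ε/(9*(b-a)) by
    apply div_pos hε; linarith) (show mu < 1 by linarith)
  set u := mu^n * (b - a) with hu
  have hupos : 0 < u := by
    have : 0 < b - a := by linarith
    have := mu_pow_pos n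
    positivity
  have huG : u ∈ G := hmun n _ (G.sub_mem hbG haG)
  have hu9 : 9*u < ε := by
    rw [lt_div_iff₀ (by linarith)] at hn
    rw [hu]; linarith
  have hx0I : b + 9*u ∈ I := by
    apply hball
    rw [Metric.mem_ball, Real.dist_eq]
    rw [show b + 9*u - b = 9*u by ring, abs_of_pos (by linarith)]
    exact hu9
  have h9u : 9*u ∈ G := by
    have := G.nsmul_mem huG 9
    simpa using this
  have hx0G : b + 9*u ∈ G := G.add_mem hbG h9u
  set x0 := b + 9*u with hx0
  -- the rescaled subgroup
  let G' : AddSubgroup ℝ :=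
    { carrier := {t | u * t ∈ G}
      zero_mem' := by simp
      add_mem' := by
        intro s t hs ht
        have hs' : u * s ∈ G := hs
        have ht' : u * t ∈ G := ht
        show u * (s + t) ∈ G
        rw [mul_add]; exact G.add_mem hs' ht'
      neg_mem' := by
        intro s hs
        have hs' : u * s ∈ G := hs
        show u * (-s) ∈ G
        rw [mul_neg]; exact G.neg_mem hs' }
  have hG' : ∀ t, t ∈ G' ↔ u * t ∈ G := fun t => Iff.rfl
  let J : Set ℝ := {t | x0 - u*t ∈ I}
  have hJ : ∀ t, t ∈ J ↔ x0 - u*t ∈ I := fun t => Iff.rfl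
  let F : ℝ → ℝ := fun t => f (x0 - u*t)
  have hF : ∀ t, F t = f (x0 - u*t) := fun t => rfl
  have H : Hyp F G' J := by
    refine ⟨?_, ?_, ?_, ?_⟩
    · rw [hG']; simpa using huG
    · intro x hx
      rw [hG'] at *
      have := hroot _ hx
      rwa [show Real.sqrt 2 * (u * x) = u * (Real.sqrt 2 * x) by ring] at this
    · intro s t hs hst ht
      rw [hJ] at *
      refine hc.out ht hx0I ⟨?_, ?_⟩
      · nlinarith
      · nlinarith
    · intro t ht h hh hpos h0 htJ
      rw [hG'] at ht hh
      rw [hJ] at htJ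
      have h1 := hf (x0 - u*t) (G.sub_mem hx0G ht) (u*h) hh (by positivity) htJ (by
        refine hc.out htJ hx0I ⟨?_, ?_⟩
        · have : 0 < u*h := by positivity
          linarith
        · have : 0 ≤ u*(t - 2*h) := by positivity
          nlinarith)
      rw [hF, hF, hF]
      have e1 : x0 - u*(t - h) = x0 - u*t + u*h := by ring
      have e2 : x0 - u*(t - 2*h) = x0 - u*t + 2*(u*h) := by ring
      rw [e1, e2]
      exact h1
  -- the bound
  set K := max (F 0) (max (F 1) (F (Real.sqrt 2))) with hK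
  have k0 : (0:ℝ) ∈ D F G' J K := ⟨G'.zero_mem, le_rfl, fun _ => le_max_left _ _⟩
  have k1 : (1:ℝ) ∈ D F G' J K :=
    ⟨H.one, zero_le_one, fun _ => le_max_of_le_right (le_max_left _ _)⟩
  have k2 : Real.sqrt 2 ∈ D F G' J K :=
    ⟨by simpa using H.root 1 H.one, hs0.le, fun _ => le_max_of_le_right (le_max_right _ _)⟩
  have hbound : ∀ x ∈ G, x ∈ I → x ≤ b → f x ≤ K := by
    intro x hxG hxI hxb
    have e : x0 - u*((x0 - x)/u) = x := by field_simp; ring
    have h1 : (x0 - x)/u ∈ G' := by
      rw [hG', mul_div_cancel₀ _ hupos.ne']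
      exact G.sub_mem hx0G hxG
    have h2 : (x0 - x)/u ∈ J := by rw [hJ, e]; exact hxI
    have h3 : 9 ≤ (x0 - x)/u := by
      rw [le_div_iff₀ hupos]; linarith
    have h4 := upper_bound H k0 k1 k2 h1 h2 h3
    rwa [hF, e] at h4
  -- contraction
  have hcontr : ∀ j : ℕ, ∀ x ∈ G, x ∈ I → x < b → f x ≤ f b + (3/4)^j * (K - f b) := by
    intro j
    induction j with
    | zero =>
      intro x hxG hxI hxb
      have := hbound x hxG hxI hxb.le
      simp; exact this
    | succ j ih =>
      intro x hxG hxI hxb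
      set d := b - x with hd
      have hdpos : 0 < d := by rw [hd]; linarith
      have hdG : d ∈ G := G.sub_mem hbG hxG
      have hg : mu * d ∈ G := hmu _ hdG
      have hg2 : mu^2 * d ∈ G := hmun 2 _ hdG
      have p1 : 0 < mu * d := by positivity
      have p2 : 0 < mu^2 * d := by positivity
      have q1 : mu * d < d / 2 := by nlinarith
      have q2 : mu^2 * d = d - 2*(mu*d) := by rw [msq]; ring
      have q3 : mu^2 * d < d / 4 := by
        have : mu^2 < 1/4 := by nlinarith
        nlinarith
      -- the point x' = x + μ² d = b - 2 μ d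
      have hx' : x + mu^2*d ∈ G := G.add_mem hxG hg2
      have hx'I : x + mu^2*d ∈ I := hc.out hxI hbI ⟨by linarith, by linarith⟩
      have hx''G : x + 2*(mu^2*d) ∈ G := by
        rw [two_mul]; exact G.add_mem hxG (G.add_mem hg2 hg2)
      have hx''I : x + 2*(mu^2*d) ∈ I := hc.out hxI hbI ⟨by linarith, by linarith⟩
      have i1 := hf x hxG (mu^2*d) hg2 p2 hxI hx''I
      have i2 := hf (x + mu^2*d) hx' (mu*d) hg p1 hx'I (by
        have : x + mu^2*d + 2*(mu*d) = b := by rw [q2, hd]; ring
        rw [this]; exact hbI)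
      have e1 : x + mu^2*d + 2*(mu*d) = b := by rw [q2, hd]; ring
      rw [e1] at i2
      have hyG : x + mu^2*d + mu*d ∈ G := G.add_mem hx' hg
      have hyI : x + mu^2*d + mu*d ∈ I := hc.out hxI hbI ⟨by linarith, by linarith⟩
      have j1 := ih _ hyG hyI (by linarith)
      have j2 := ih _ hx''G hx''I (by linarith)
      rw [pow_succ]
      linarith
  have hlim : Filter.Tendsto (fun j : ℕ => f b + (3/4:ℝ)^j * (K - f b)) Filter.atTop
      (nhds (f b + 0 * (K - f b))) :=
    ((tendsto_pow_atTop_nhds_zero_of_lt_one (by norm_num) (by norm_num)).mul_const _).const_add _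
  have h := ge_of_tendsto' hlim (fun j => hcontr j a haG haI hlt)
  simpa using h

end Pool.Agent.Y322.Kemp
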