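import Mathlib

/-!
# Kemperman's inequality `2 f(x) ≤ f(x+h) + f(x+2h)`

Core of the proof that every solution is nondecreasing, without any regularity.
Write `μ = √2 - 1`, so that `μ^k = 2 μ^(k+1) + μ^(k+2)`.

We work with the reversed function `F(t) = f(x₀ - u t)`, which satisfies
`2 F(t) ≤ F(t-h) + F(t-2h)`, on `G ∩ J`, where `G` is an additive subgroup of `ℝ` that contains `1`
and is closed under multiplication by `√2`, and `J ∩ [0,∞)` is downward closed in `[0,∞)`.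
-/

namespace Pool.Agent.Y322.Kemp

/-- `μ = √2 - 1`. -/
noncomputable def mu : ℝ := Real.sqrt 2 - 1

lemma sqrt_two_sq : Real.sqrt 2 * Real.sqrt 2 = 2 := Real.mul_self_sqrt (by norm_num)

lemma mu_pos : 0 < mu := by
  have h : (1:ℝ) < Real.sqrt 2 := by
    rw [Real.lt_sqrt (by norm_num)]; norm_num
  unfold mu; linarith

lemma mu_lt_half : mu < 1/2 := by
  have h : Real.sqrt 2 < 3/2 := by
    rw [Real.sqrt_lt' (by norm_num)]; norm_num
  unfold mu; linarith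

lemma mu_sq : mu^2 = 1 - 2*mu := by
  have := sqrt_two_sq
  unfold mu
  nlinarith

lemma mu_rec (k : ℕ) : mu^k = 2*mu^(k+1) + mu^(k+2) := by
  have h : mu^(k+2) = mu^k * mu^2 := pow_add _ _ _
  rw [h, mu_sq, pow_succ]; ring

lemma mu_pow_pos (k : ℕ) : 0 < mu^k := pow_pos mu_pos k

lemma mu_pow_succ_lt (k : ℕ) : mu^(k+1) < mu^k / 2 := by
  rw [pow_succ]
  have := mu_pow_pos k
  have := mu_lt_half
  nlinarith

/-- Hypotheses for the reversed function. -/
structure Hyp (F : ℝ → ℝ) (G : AddSubgroup ℝ) (J : Set ℝ) : Prop where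
  one : (1:ℝ) ∈ G
  root : ∀ x ∈ G, Real.sqrt 2 * x ∈ G
  low : ∀ s t, 0 ≤ s → s ≤ t → t ∈ J → s ∈ J
  ineq : ∀ t ∈ G, ∀ h ∈ G, 0 < h → 0 ≤ t - 2*h → t ∈ J → 2 * F t ≤ F (t-h) + F (t - 2*h)

/-- The good set. -/
def D (F : ℝ → ℝ) (G : AddSubgroup ℝ) (J : Set ℝ) (K : ℝ) : Set ℝ :=
  {t | t ∈ G ∧ 0 ≤ t ∧ (t ∈ J → F t ≤ K)}

variable {F : ℝ → ℝ} {G : AddSubgroup ℝ} {J : Set ℝ} {K : ℝ}

lemma mu_pow_mem (H : Hyp F G J) (k : ℕ) : mu^k ∈ G := by
  induction k with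
  | zero => simpa using H.one
  | succ n ih =>
    have h : mu^(n+1) = Real.sqrt 2 * mu^n - mu^n := by
      rw [pow_succ]; unfold mu; ring
    rw [h]
    exact G.sub_mem (H.root _ ih) ih

/-- Reflection closure. -/
lemma refl_mem (H : Hyp F G J) {s t : ℝ} (hs : s ∈ D F G J K) (ht : t ∈ D F G J K)
    (hst : s < t) : 2*t - s ∈ D F G J K := by
  obtain ⟨hsG, hs0, hsK⟩ := hs
  obtain ⟨htG, ht0, htK⟩ := ht
  have hG : 2*t - s ∈ G := by
    have : 2*t - s = t + t - s := by ring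
    rw [this]
    exact G.sub_mem (G.add_mem htG htG) hsG
  refine ⟨hG, by linarith, fun hJ => ?_⟩
  have h1 := H.ineq (2*t - s) hG (t - s) (G.sub_mem htG hsG) (by linarith) (by linarith) hJ
  have e1 : 2*t - s - (t - s) = t := by ring
  have e2 : 2*t - s - 2*(t - s) = s := by ring
  rw [e1, e2] at h1
  have h2 := hsK (H.low s _ hs0 (by linarith) hJ)
  have h3 := htK (H.low t _ ht0 (by linarith) hJ)
  linarith

/-- Arithmetic progressions. -/
lemma ap_mem (H : Hyp F G J) {s v : ℝ} (hv : 0 < v) (hs : s ∈ D F G J K)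
    (hsv : s + v ∈ D F G J K) (j : ℕ) : s + j*v ∈ D F G J K ∧ s + (j+1)*v ∈ D F G J K := by
  induction j with
  | zero => simpa using ⟨hs, hsv⟩
  | succ n ih =>
    obtain ⟨h1, h2⟩ := ih
    refine ⟨by push_cast; exact h2, ?_⟩
    have h3 := refl_mem H h1 h2 (by nlinarith)
    have e : 2 * (s + ((n:ℝ)+1)*v) - (s + n*v) = s + (((n+1 : ℕ):ℝ)+1)*v := by
      push_cast; ring
    rwa [e] at h3

/-- Choose a point of the progression in `[s, s+v)`. -/
lemma exists_ap {t₀ v s : ℝ} (hv : 0 < v) (hs : t₀ ≤ s) :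
    ∃ j : ℕ, s ≤ t₀ + j*v ∧ t₀ + j*v < s + v := by
  refine ⟨⌈(s - t₀)/v⌉₊, ?_, ?_⟩
  · have h := Nat.le_ceil ((s - t₀)/v)
    rw [div_le_iff₀ hv] at h
    linarith
  · have h := Nat.ceil_lt_add_one (a := (s - t₀)/v) (div_nonneg (by linarith) hv.le)
    have h2 : (⌈(s - t₀)/v⌉₊ : ℝ) - 1 < (s - t₀)/v := by linarith
    rw [lt_div_iff₀ hv] at h2
    linarith

/-- Lemma C. -/
lemma shift_mem (H : Hyp F G J) {t₀ v s : ℝ} (hv : 0 < v) (h0 : t₀ ∈ D F G J K)
    (h1 : t₀ + v ∈ D F G J K) (hs : s ∈ D F G J K) (hle : t₀ ≤ s) :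
    s + 2*v ∈ D F G J K := by
  obtain ⟨j, hj1, hj2⟩ := exists_ap hv hle
  obtain ⟨ha, hb⟩ := ap_mem H hv h0 h1 j
  set t := t₀ + j*v with ht
  have hb' : t + v ∈ D F G J K := by
    have : t + v = t₀ + ((j:ℝ)+1)*v := by rw [ht]; ring
    rwa [this]
  rcases hj1.lt_or_eq with hlt | heq
  · have h2 := refl_mem H hs ha hlt
    have h3 := refl_mem H h2 hb' (by linarith)
    have e : 2*(t + v) - (2*t - s) = s + 2*v := by ring
    rwa [e] at h3
  · have h3 := refl_mem H ha hb' (by linarith)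
    have e : 2*(t + v) - t = s + 2*v := by rw [heq]; ring
    rwa [e] at h3

/-- Pairs at all scales, with bounded base points. -/
lemma pairs (H : Hyp F G J) (h0 : (0:ℝ) ∈ D F G J K) (h1 : (1:ℝ) ∈ D F G J K)
    (h2 : Real.sqrt 2 ∈ D F G J K) (k : ℕ) :
    ∃ a b : ℝ, a ∈ D F G J K ∧ a + mu^k ∈ D F G J K ∧ b ∈ D F G J K ∧
      b + mu^(k+1) ∈ D F G J K ∧ a ≤ b ∧ b + 4*mu^k ≤ 5 := by
  induction k with
  | zero =>
    refine ⟨0, 1, h0, by simpa using h1, h1, ?_, by norm_num, by norm_num⟩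
    have : (1:ℝ) + mu^(0+1) = Real.sqrt 2 := by
      unfold mu; ring
    rwa [this]
  | succ n ih =>
    obtain ⟨a, b, ha, ha', hb, hb', hab, hbd⟩ := ih
    obtain ⟨j, hj1, hj2⟩ := exists_ap (mu_pow_pos n) hab
    obtain ⟨hc, hd⟩ := ap_mem H (mu_pow_pos n) ha ha' j
    set t := a + j*mu^n with ht
    have hd' : t + mu^n ∈ D F G J K := by
      have : t + mu^n = a + ((j:ℝ)+1)*mu^n := by rw [ht]; ring
      rwa [this]
    have he := shift_mem H (mu_pow_pos (n+1)) hb hb' hc hj1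
    refine ⟨b, t + 2*mu^(n+1), hb, hb', he, ?_, ?_, ?_⟩
    · have : t + 2*mu^(n+1) + mu^(n+1+1) = t + mu^n := by
        have := mu_rec n
        have e : mu^(n+1+1) = mu^(n+2) := rfl
        rw [e]; linarith
      rwa [this]
    · have := mu_pow_pos (n+1); linarith
    · have h3 := mu_pow_succ_lt n
      have h4 := mu_pow_pos (n+1)
      nlinarith

lemma shift_all (H : Hyp F G J) (h0 : (0:ℝ) ∈ D F G J K) (h1 : (1:ℝ) ∈ D F G J K)
    (h2 : Real.sqrt 2 ∈ D F G J K) (k : ℕ) {s : ℝ} (hs : s ∈ D F G J K) (h5 : 5 ≤ s) :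
    s + 2*mu^k ∈ D F G J K := by
  obtain ⟨a, b, ha, ha', hb, hb', hab, hbd⟩ := pairs H h0 h1 h2 k
  have := mu_pow_pos k
  exact shift_mem H (mu_pow_pos k) ha ha' hs (by linarith)

lemma ap_all (H : Hyp F G J) (h0 : (0:ℝ) ∈ D F G J K) (h1 : (1:ℝ) ∈ D F G J K)
    (h2 : Real.sqrt 2 ∈ D F G J K) (k j : ℕ) : 5 + j*(2*mu^k) ∈ D F G J K := by
  induction j with
  | zero =>
    have h := (ap_mem H one_pos h0 (by simpa using h1) 5).1
    simpa using h
  | succ n ih =>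
    have hp := mu_pow_pos k
    have h := shift_all H h0 h1 h2 k ih (by
      have : (0:ℝ) ≤ n := Nat.cast_nonneg n
      nlinarith)
    have e : 5 + ((n+1 : ℕ):ℝ)*(2*mu^k) = 5 + n*(2*mu^k) + 2*mu^k := by push_cast; ring
    rwa [e]

/-- The growth step. -/
lemma growth_one (H : Hyp F G J) (h0 : (0:ℝ) ∈ D F G J K) (h1 : (1:ℝ) ∈ D F G J K)
    (h2 : Real.sqrt 2 ∈ D F G J K) (k : ℕ) {w : ℝ} (hwG : w ∈ G) (hwJ : w ∈ J)
    (hw : 5 + 4*mu^k ≤ w) (hK : K < F w) :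
    4*(F w - K) ≤ F (w - 4*mu^k) - K := by
  have hp := mu_pow_pos k
  have hv : 0 < 2*mu^k := by linarith
  -- choose j with 5 + j v ≤ w < 5 + (j+1) v
  obtain ⟨j, hj1, hj2⟩ := exists_ap (t₀ := 5) (v := 2*mu^k) (s := w - 2*mu^k) hv (by linarith)
  -- w - v ≤ 5 + j v < w
  set y := 5 + (j:ℝ)*(2*mu^k) with hy
  have hyD : y ∈ D F G J K := ap_all H h0 h1 h2 k j
  have hj2' : y < w := by linarith
  have hwD : w ∉ D F G J K := fun h => absurd (h.2.2 hwJ) (not_le.mpr hK)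
  have hyv : w - 2*mu^k < y := by
    rcases hj1.lt_or_eq with h | h
    · exact h
    · exfalso
      apply hwD
      have h3 := ap_all H h0 h1 h2 k (j+1)
      have e : 5 + ((j+1 : ℕ):ℝ)*(2*mu^k) = w := by
        push_cast
        have : y + 2*mu^k = w := by linarith
        rw [← this, hy]; ring
      rwa [e] at h3
  obtain ⟨i, rfl⟩ : ∃ i, j = i + 1 := by
    rcases Nat.eq_zero_or_pos j with h | h
    · exfalso
      have : y = 5 := by rw [hy, h]; simp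
      linarith
    · exact ⟨j - 1, by omega⟩
  have hy'D : y - 2*mu^k ∈ D F G J K := by
    have h3 := ap_all H h0 h1 h2 k i
    have e : 5 + (i:ℝ)*(2*mu^k) = y - 2*mu^k := by rw [hy]; push_cast; ring
    rwa [e] at h3
  have hyK := hyD.2.2 (H.low y w hyD.2.1 hj2'.le hwJ)
  have hy'K := hy'D.2.2 (H.low _ w hy'D.2.1 (by linarith) hwJ)
  have hz0 : 0 ≤ 2*y - w := by linarith
  have hzG : 2*y - w ∈ G := by
    have : 2*y - w = y + y - w := by ring
    rw [this]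
    exact G.sub_mem (G.add_mem hyD.1 hyD.1) hwG
  have i1 := H.ineq w hwG (w - y) (G.sub_mem hwG hyD.1) (by linarith) (by linarith) hwJ
  have e1 : w - (w - y) = y := by ring
  have e2 : w - 2*(w - y) = 2*y - w := by ring
  rw [e1, e2] at i1
  have i2 := H.ineq (2*y - w) hzG (2*y - w - (y - 2*mu^k)) (G.sub_mem hzG hy'D.1)
    (by linarith) (by linarith) (H.low _ w hz0 (by linarith) hwJ)
  have e3 : 2*y - w - (2*y - w - (y - 2*mu^k)) = y - 2*mu^k := by ring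
  have e4 : 2*y - w - 2*(2*y - w - (y - 2*mu^k)) = w - 4*mu^k := by ring
  rw [e3, e4] at i2
  linarith

/-- Iterated growth, at all scales. -/
lemma growth_all (H : Hyp F G J) (h0 : (0:ℝ) ∈ D F G J K) (h1 : (1:ℝ) ∈ D F G J K)
    (h2 : Real.sqrt 2 ∈ D F G J K) (n : ℕ) : ∀ (k : ℕ) {w : ℝ}, w ∈ G → w ∈ J →
    5 + 4*mu^k ≤ w → K < F w → 4^(n+1)*(F w - K) ≤ F (w - 4*mu^k) - K := by
  induction n with
  | zero =>
    intro k w hwG hwJ hw hK
    simpa using growth_one H h0 h1 h2 k hwG hwJ hw hK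
  | succ n ih =>
    intro k w hwG hwJ hw hK
    have hr := mu_rec k
    have p0 := mu_pow_pos k
    have p1 := mu_pow_pos (k+1)
    have p2 := mu_pow_pos (k+2)
    have hm : ∀ i, 4*mu^i ∈ G := fun i => by
      have : 4*mu^i = mu^i + mu^i + (mu^i + mu^i) := by ring
      rw [this]
      exact G.add_mem (G.add_mem (mu_pow_mem H i) (mu_pow_mem H i))
        (G.add_mem (mu_pow_mem H i) (mu_pow_mem H i))
    have g1 := ih (k+1) hwG hwJ (by linarith) hK
    have q1 : (0:ℝ) < 4^(n+1)*(F w - K) := by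
      have : (0:ℝ) < F w - K := by linarith
      positivity
    have hK1 : K < F (w - 4*mu^(k+1)) := by linarith
    have hG1 : w - 4*mu^(k+1) ∈ G := G.sub_mem hwG (hm _)
    have hJ1 : w - 4*mu^(k+1) ∈ J := H.low _ w (by linarith) (by linarith) hwJ
    have g2 := growth_one H h0 h1 h2 (k+1) hG1 hJ1 (by linarith) hK1
    set w2 := w - 4*mu^(k+1) - 4*mu^(k+1) with hw2
    have hK2 : K < F w2 := by linarith
    have hG2 : w2 ∈ G := G.sub_mem hG1 (hm _)
    have hJ2 : w2 ∈ J := H.low _ w (by linarith) (by linarith) hwJ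
    have g3 := growth_one H h0 h1 h2 (k+2) hG2 hJ2 (by linarith) hK2
    have e : w2 - 4*mu^(k+2) = w - 4*mu^k := by rw [hw2]; linarith
    rw [e] at g3
    have e2 : (4:ℝ)^(n+1+1) * (F w - K) = 4*(4^(n+1)*(F w - K)) := by ring
    rw [e2]
    linarith

/-- **Local upper bound.** -/
theorem upper_bound (H : Hyp F G J) (h0 : (0:ℝ) ∈ D F G J K) (h1 : (1:ℝ) ∈ D F G J K)
    (h2 : Real.sqrt 2 ∈ D F G J K) {w : ℝ} (hwG : w ∈ G) (hwJ : w ∈ J) (hw : 9 ≤ w) :
    F w ≤ K := by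
  by_contra hK
  push Not at hK
  have hpos : 0 < F w - K := by linarith
  obtain ⟨n, hn⟩ := pow_unbounded_of_one_lt ((F (w - 4) - K)/(F w - K)) (by norm_num : (1:ℝ) < 4)
  rw [div_lt_iff₀ hpos] at hn
  have h := growth_all H h0 h1 h2 n 0 hwG hwJ (by norm_num; linarith) hK
  simp only [pow_zero, mul_one] at h
  have h3 : (4:ℝ)^n * (F w - K) ≤ 4^(n+1)*(F w - K) := by
    have : (0:ℝ) < 4^n * (F w - K) := by positivity
    rw [pow_succ]; linarith
  linarith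

end Pool.Agent.Y322.Kemp
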